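import Mathlib
import Pool.Agent.Helper159.CslDefs
import Pool.Agent.Y15.CslT

/-!
# Dense compact operators with arbitrarily slow approximation numbers

For every null sequence `ε` there is a commutative subspace lattice `L` on a separable Hilbert space
which is not completely distributive, such that `Alg L` contains a sequence of compact contractions
converging strongly to the identity, so that the compact operators of `Alg L` are weak* dense in
`Alg L`, whereas `ε n = o(a_n(T))` for every nonzero `T` in `Alg L`, where `a_n(T)` are the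
approximation numbers (singular values).
-/

open Filter
open Pool.Agent.Helper159.Csl

namespace Pool.Agent.Results.MP_0bc9fa_an.CompactsDenseSlow

/-- The approximation numbers of a bounded operator on a Hilbert space: `apn T n` is the distance of
`T` to the operators of rank at most `n`. -/
noncomputable def apn {H : Type*} [NormedAddCommGroup H] [InnerProductSpace ℂ H]
    (T : H →L[ℂ] H) (n : ℕ) : ℝ :=
  sInf {r : ℝ | ∃ F : H →L[ℂ] H, (F : H →ₗ[ℂ] H).rank ≤ n ∧ r = ‖T - F‖}

theorem result (ε : ℕ → ℝ) (hε : Tendsto ε atTop (nhds 0)) :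
    ∃ (H : Type) (_ : NormedAddCommGroup H) (_ : InnerProductSpace ℂ H) (_ : CompleteSpace H)
      (_ : TopologicalSpace.SeparableSpace H) (L : Set (ClosedSubmodule ℂ H)),
      IsCSL L ∧ CompactsWeakStarDense L ∧ ¬ IsCompletelyDistributive L ∧
      (∃ K : ℕ → (H →L[ℂ] H), (∀ n, K n ∈ Alg L ∧ IsCompactOperator (K n) ∧ ‖K n‖ ≤ 1) ∧
        ∀ x, Tendsto (fun n => K n x) atTop (nhds x)) ∧
      ∀ T ∈ Alg L, T ≠ 0 → ε =o[atTop] fun n => apn T n := by
  exact ⟨Y15.CslW.HH, inferInstance, inferInstance, inferInstance, inferInstance,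
    @Y15.CslW.LL (Y15.CslT.wt hε), @Y15.CslW.isCSL_LL (Y15.CslT.wt hε),
    @Y15.CslW.dense_LL (Y15.CslT.wt hε), @Y15.CslW.not_cd_LL (Y15.CslT.wt hε),
    ⟨@Y15.CslW.Kn (Y15.CslT.wt hε), fun n =>
      ⟨subset_alg_latS _ (Or.inr ⟨n, rfl⟩), @Y15.CslW.Kn_compact (Y15.CslT.wt hε) n,
        @Y15.CslW.Kn_norm (Y15.CslT.wt hε) n⟩, @Y15.CslW.Kn_tendsto (Y15.CslT.wt hε)⟩,
    fun T hT h0 => Y15.CslT.slow_o hε hT h0⟩

end Pool.Agent.Results.MP_0bc9fa_an.CompactsDenseSlow
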